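import Pool.Graph.R_pool_sql_team_seeded_5cf16337.K3h40.EC.Defs
import Pool.Agent.H992.LB.End

/-!
# Averages of local measures over energies: definitions and statements (MP_6b977f_mp)

`C(ℂ, ℝ)` has the topology of locally uniform convergence. The definitions `cutWave`, `localWave`,
`IsLocalLimit`, `IsCutoff` are those of the library file `K3h40.EC.Defs`; `MW`, `lin`,
`IsStationary`, `IsRandomWave` are those of `N661.BR.Defs`.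
-/

set_option autoImplicit false
open MeasureTheory Filter Topology Complex ProbabilityTheory
open scoped ContDiff ENNReal NNReal BoundedContinuousFunction

namespace Pool.Agent.H992.BE

open Pool.Agent.W745.RW (lap)
open Pool.Agent.K3h40.EC.Loc (cutWave localWave IsCutoff IsLocalLimit)
open Pool.Agent.K3h40.EC (psi)
open Pool.Agent.N661.BR (MW lin IsStationary IsRandomWave)

noncomputable section

/-- `u n` are real solutions of `Δu + λ_n u = 0` on the open set `Ω` of finite area, each of them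
bounded, `λ_n → ∞`, with bounded `L²` norms; no boundary condition -/
structure IsEigenSequence (Ω : Set ℂ) (lam : ℕ → ℝ) (u : ℕ → ℂ → ℝ) : Prop where
  isOpen : IsOpen Ω
  nonempty : Ω.Nonempty
  area : volume Ω ≠ ⊤
  pos : ∀ n, 0 < lam n
  lim : Tendsto lam atTop atTop
  smooth : ∀ n, ContDiffOn ℝ ∞ (u n) Ω
  bounded : ∀ n, ∃ C : ℝ, ∀ z ∈ Ω, |u n z| ≤ C
  eigen : ∀ n, ∀ z ∈ Ω, lap (u n) z + lam n * u n z = 0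
  mass : ∃ C : ℝ, ∀ n, ∫ z in Ω, u n z ^ 2 ≤ C

/-- the mean of `G` for the local measure `m = |Ω|⁻¹ ∫_Ω δ_(localWave z₀) dz₀` of `u` -/
def localMean (Ω : Set ℂ) (χ : ℝ → ℝ) (lam : ℝ) (u : ℂ → ℝ) (G : C(ℂ, ℝ) → ℝ) : ℝ :=
  (∫ z₀ in Ω, G (localWave Ω χ lam u z₀)) / (volume Ω).toReal

/-- an element of `MW` as a continuous function -/
def toC (f : MW) : C(ℂ, ℝ) := ⟨f.1, f.2.1.continuous⟩

/-- the sequence `σ` has full density: the proportion of the integers `< N` in its range tends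
to `1` -/
def FullDensity (σ : ℕ → ℕ) : Prop :=
  Tendsto (fun N : ℕ => (Set.ncard {n : ℕ | n < N ∧ n ∈ Set.range σ} : ℝ) / N) atTop (𝓝 1)

/-! ### abstract part -/

/-- the reproduction formulas hold at all points of the disc of radius `R` -/
def Good (R : ℝ) (f : C(ℂ, ℝ)) : Prop := ∀ x : ℂ, ‖x‖ ≤ R →
  (∫ w, f (x + w) * psi w = f x) ∧ ∫ w, f (x + w) * lap psi w = -f x

/-- the character `f ↦ exp (i ∑ t_j f(w_j))` -/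
def ch {k : ℕ} (w : Fin k → ℂ) (t : Fin k → ℝ) (f : C(ℂ, ℝ)) : ℂ :=
  Complex.exp (I * ((∑ j, t j * f (w j) : ℝ) : ℂ))

/-- the properties of the sequence of local measures -/
structure Reg [MeasurableSpace C(ℂ, ℝ)] (m : ℕ → Measure C(ℂ, ℝ)) : Prop where
  prob : ∀ n, IsProbabilityMeasure (m n)
  mass : ∀ ρ : ℝ, ∃ C : ℝ≥0∞, C ≠ ⊤ ∧ ∀ n,
    ∫⁻ f, (∫⁻ v in Metric.closedBall (0 : ℂ) ρ, ‖f v‖ₑ) ∂(m n) ≤ C
  rep : ∀ R : ℝ, Tendsto (fun n => m n {f | ¬ Good R f}) atTop (𝓝 0)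
  sq : ∃ C : ℝ≥0∞, C ≠ ⊤ ∧ ∀ n, ∫⁻ f, ‖f 0‖ₑ ^ 2 ∂(m n) ≤ C
  stat : ∀ (x : ℂ) (k : ℕ) (w : Fin k → ℂ) (t : Fin k → ℝ),
    Tendsto (fun n => ∫ f, ch (fun j => w j + x) t f ∂(m n) - ∫ f, ch w t f ∂(m n)) atTop (𝓝 0)

/-- weights of total mass at most one which leave every finite set -/
structure Sch (a : ℕ → ℕ → ℝ≥0) (L : ℕ → ℕ) : Prop where
  le : ∀ N, ∑ n ∈ Finset.range (L N), a N n ≤ 1
  zero : ∀ n, Tendsto (fun N => a N n) atTop (𝓝 0)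

/-- the weighted averages -/
def avg [MeasurableSpace C(ℂ, ℝ)] (m : ℕ → Measure C(ℂ, ℝ)) (a : ℕ → ℕ → ℝ≥0) (L : ℕ → ℕ)
    (N : ℕ) : Measure C(ℂ, ℝ) := ∑ n ∈ Finset.range (L N), a N n • m n

/-- the local measure -/
def locMeas [MeasurableSpace C(ℂ, ℝ)] (Ω : Set ℂ) (χ : ℝ → ℝ) (lam : ℝ) (u : ℂ → ℝ) :
    Measure C(ℂ, ℝ) :=
  (volume Ω)⁻¹ • (volume.restrict Ω).map (localWave Ω χ lam u)

/-- a compact set of functions -/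
def KS (K : ℕ → ℝ) : Set C(ℂ, ℝ) := {f | ∀ R : ℕ, ∀ x y : ℂ, ‖x‖ ≤ R → ‖y‖ ≤ R →
  |f x| ≤ K R ∧ |f x - f y| ≤ K R * ‖x - y‖}

/-- the local regularisation: `x ↦ ∫_{|x + w| ≤ ρ} f(x + w) psi(w) dw` -/
def regf (ρ : ℝ) (f : C(ℂ, ℝ)) (x : ℂ) : ℝ :=
  ∫ v in Metric.closedBall (0 : ℂ) ρ, f v * psi (v - x)

/-! ### statements -/

/-- compactness -/
def S_KS : Prop := ∀ K : ℕ → ℝ, IsCompact (KS K)

/-- uniform continuity near a compact set -/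
def S_Near : Prop := ∀ (K : Set C(ℂ, ℝ)), IsCompact K → ∀ G : C(ℂ, ℝ) → ℝ, Continuous G →
  ∀ ε : ℝ, 0 < ε → ∃ R : ℝ, ∀ g ∈ K, ∀ f : C(ℂ, ℝ), (∀ x : ℂ, ‖x‖ ≤ R → f x = g x) →
    |G f - G g| ≤ ε

/-- the regularisation map -/
def S_Regf : Prop := ∃ r : ℝ → C(ℂ, ℝ) → C(ℂ, ℝ), (∀ ρ f x, r ρ f x = regf ρ f x) ∧
  (∀ ρ, Continuous (r ρ)) ∧
  (∀ (ρ R : ℝ) (f : C(ℂ, ℝ)), R + 1 ≤ ρ → Good R f → ∀ x : ℂ, ‖x‖ ≤ R → r ρ f x = f x) ∧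
  ∃ C : ℝ, 0 ≤ C ∧ ∀ (ρ R : ℝ) (f : C(ℂ, ℝ)) (x y : ℂ), ‖x‖ ≤ R → ‖y‖ ≤ R →
    |r ρ f x| ≤ C * (∫ v in Metric.closedBall (0 : ℂ) (R + 1), |f v|) ∧
    |r ρ f x - r ρ f y| ≤ C * (∫ v in Metric.closedBall (0 : ℂ) (R + 1), |f v|) * ‖x - y‖

/-- limits of averages along ultrafilters -/
def S_Lim : Prop := ∀ [MeasurableSpace C(ℂ, ℝ)] [BorelSpace C(ℂ, ℝ)] (m : ℕ → Measure C(ℂ, ℝ)),
  Reg m → ∀ (a : ℕ → ℕ → ℝ≥0) (L : ℕ → ℕ), Sch a L → ∀ φ : Ultrafilter ℕ, (φ : Filter ℕ) ≤ atTop →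
    ∃ μ : Measure C(ℂ, ℝ), IsFiniteMeasure μ ∧ ∀ G : C(ℂ, ℝ) → ℝ, Continuous G →
      (∃ C, ∀ f, |G f| ≤ C) → Tendsto (fun N => ∫ f, G f ∂(avg m a L N)) φ (𝓝 (∫ f, G f ∂μ))

/-- limits of subsequences -/
def S_Sub : Prop := ∀ [MeasurableSpace C(ℂ, ℝ)] [BorelSpace C(ℂ, ℝ)] (m : ℕ → Measure C(ℂ, ℝ)),
  Reg m → ∀ σ : ℕ → ℕ, StrictMono σ → ∃ (τ : ℕ → ℕ) (μ : Measure C(ℂ, ℝ)), StrictMono τ ∧
    IsProbabilityMeasure μ ∧ ∀ G : C(ℂ, ℝ) → ℝ, Continuous G → (∃ C, ∀ f, |G f| ≤ C) →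
      Tendsto (fun j => ∫ f, G f ∂(m (σ (τ j)))) atTop (𝓝 (∫ f, G f ∂μ))

/-- every limit is the law of a stationary wave -/
def S_MW : Prop := ∀ [MeasurableSpace C(ℂ, ℝ)] [BorelSpace C(ℂ, ℝ)] (m : ℕ → Measure C(ℂ, ℝ)),
  Reg m → ∀ (a : ℕ → ℕ → ℝ≥0) (L : ℕ → ℕ), Sch a L → ∀ φ : Ultrafilter ℕ, (φ : Filter ℕ) ≤ atTop →
    ∀ μ : Measure C(ℂ, ℝ), IsFiniteMeasure μ → (∀ G : C(ℂ, ℝ) → ℝ, Continuous G →
      (∃ C, ∀ f, |G f| ≤ C) → Tendsto (fun N => ∫ f, G f ∂(avg m a L N)) φ (𝓝 (∫ f, G f ∂μ))) →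
    ∃ μ' : Measure MW, IsFiniteMeasure μ' ∧ Measurable toC ∧ μ = μ'.map toC ∧ IsStationary μ' ∧
      Integrable (fun f : MW => f 0 ^ 2) μ'

/-- uniform absolute continuity for continuous cylinder functions implies absolute continuity -/
def S_AC : Prop := ∀ (U : Set ℂ) (μ γ : Measure MW) [IsFiniteMeasure μ] [IsFiniteMeasure γ],
  (∀ ε : ℝ, 0 < ε → ∃ δ : ℝ, 0 < δ ∧ ∀ (k : ℕ) (w : Fin k → ℂ), (∀ j, w j ∈ U) →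
    ∀ Φ : (Fin k → ℝ) → ℝ, Continuous Φ → (∀ y, 0 ≤ Φ y) → (∀ y, Φ y ≤ 1) →
      ∫ f : MW, Φ (fun j => f (w j)) ∂γ ≤ δ → ∫ f : MW, Φ (fun j => f (w j)) ∂μ ≤ ε) →
  ∀ A : Set MW, MeasurableSet[Pool.Agent.H992.LB.sig (Pool.Agent.H992.LB.ev U)] A →
    γ A = 0 → μ A = 0

/-- Koopman - von Neumann -/
def S_KvN : Prop := ∀ b : ℕ → ℕ → ℝ, (∀ i n, 0 ≤ b i n) → (∀ i n, b i n ≤ 2) →
  (∀ i, Tendsto (fun N : ℕ => (∑ n ∈ Finset.range N, b i n) / (N : ℝ)) atTop (𝓝 0)) →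
  ∃ σ : ℕ → ℕ, StrictMono σ ∧ FullDensity σ ∧ ∀ i, Tendsto (fun j => b i (σ j)) atTop (𝓝 0)

/-- a full density subsequence determines the averages -/
def S_Ces : Prop := ∀ b : ℕ → ℝ, (∃ C, ∀ n, |b n| ≤ C) → ∀ (σ : ℕ → ℕ) (c : ℝ), StrictMono σ →
  FullDensity σ → Tendsto (fun j => b (σ j)) atTop (𝓝 c) →
  Tendsto (fun N : ℕ => (∑ n ∈ Finset.range N, b n) / (N : ℝ)) atTop (𝓝 c)

/-- a continuous local modification of the sequence with uniform tightness -/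
def S_Mod : Prop := ∀ [MeasurableSpace C(ℂ, ℝ)] [BorelSpace C(ℂ, ℝ)] (m : ℕ → Measure C(ℂ, ℝ)),
  Reg m → ∃ T : ℕ → C(ℂ, ℝ) → C(ℂ, ℝ), (∀ n, Continuous (T n)) ∧
    (∀ ε : ℝ≥0∞, 0 < ε → ∃ K : ℕ → ℝ, ∀ n, m n {f | T n f ∉ KS K} ≤ ε) ∧
    ∀ G : C(ℂ, ℝ) → ℝ, Continuous G → (∃ C, ∀ f, |G f| ≤ C) →
      Tendsto (fun n => ∫ f, G f ∂(m n) - ∫ f, G (T n f) ∂(m n)) atTop (𝓝 0)

/-- the space of waves inside the space of continuous functions -/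
def S_Emb : Prop := ∀ [MeasurableSpace C(ℂ, ℝ)] [BorelSpace C(ℂ, ℝ)],
  MeasurableEmbedding toC ∧ IsClosed (Set.range toC) ∧
    ∀ f : C(ℂ, ℝ), (∀ R : ℝ, Good R f) → f ∈ Set.range toC

/-- the law of the random wave is determined by countably many characters -/
def S_Rat : Prop := ∃ (k : ℕ → ℕ) (w : ∀ i, Fin (k i) → ℂ) (t : ∀ i, Fin (k i) → ℝ),
  ∀ μ ν : Measure MW, IsFiniteMeasure μ → IsFiniteMeasure ν →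
    (∀ i, ∫ f, Complex.exp (I * (lin (w i) (t i) f : ℝ)) ∂μ =
      ∫ f, Complex.exp (I * (lin (w i) (t i) f : ℝ)) ∂ν) → μ = ν

/-- the local measures: probability measures and integrals -/
def S_RegP : Prop := ∀ [MeasurableSpace C(ℂ, ℝ)] [BorelSpace C(ℂ, ℝ)] (Ω : Set ℂ) (χ : ℝ → ℝ)
  (lam : ℕ → ℝ) (u : ℕ → ℂ → ℝ), IsCutoff χ → IsEigenSequence Ω lam u → ∀ n,
    ContinuousOn (localWave Ω χ (lam n) (u n)) Ω ∧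
    IsProbabilityMeasure (locMeas Ω χ (lam n) (u n)) ∧
    (∀ F : C(ℂ, ℝ) → ℝ≥0∞, Measurable F → ∫⁻ f, F f ∂(locMeas Ω χ (lam n) (u n)) =
      (volume Ω)⁻¹ * ∫⁻ z₀ in Ω, F (localWave Ω χ (lam n) (u n) z₀)) ∧
    (∀ (k : ℕ) (w : Fin k → ℂ) (t : Fin k → ℝ), ∫ f, ch w t f ∂(locMeas Ω χ (lam n) (u n)) =
      (∫ z₀ in Ω, ch w t (localWave Ω χ (lam n) (u n) z₀)) / ((volume Ω).toReal : ℂ)) ∧
    ∀ G : C(ℂ, ℝ) → ℝ, Continuous G → (∃ C, ∀ f, |G f| ≤ C) →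
      ∫ f, G f ∂(locMeas Ω χ (lam n) (u n)) = localMean Ω χ (lam n) (u n) G

/-- the reproduction formulas are closed conditions -/
def S_Closed : Prop := ∀ R : ℝ, IsClosed {f : C(ℂ, ℝ) | Good R f}

/-- bounds of the local mass -/
def S_RegM : Prop := ∀ (Ω : Set ℂ) (χ : ℝ → ℝ) (lam : ℕ → ℝ) (u : ℕ → ℂ → ℝ), IsCutoff χ →
  IsEigenSequence Ω lam u →
    (∀ ρ : ℝ, ∃ C : ℝ≥0∞, C ≠ ⊤ ∧ ∀ n, ∫⁻ z₀ in Ω, (∫⁻ v in Metric.closedBall (0 : ℂ) ρ,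
      ‖localWave Ω χ (lam n) (u n) z₀ v‖ₑ) ≤ C) ∧
    ∃ C : ℝ≥0∞, C ≠ ⊤ ∧ ∀ n, ∫⁻ z₀ in Ω, ‖localWave Ω χ (lam n) (u n) z₀ 0‖ₑ ^ 2 ≤ C

/-- near `z₀` there is room and the local wave is the rescaled eigenfunction -/
def Agr (Ω : Set ℂ) (χ : ℝ → ℝ) (lam : ℝ) (u : ℂ → ℝ) (R : ℝ) (z₀ : ℂ) : Prop :=
  Metric.closedBall z₀ ((R + 2) / √lam) ⊆ Ω ∧ ∀ x : ℂ, ‖x‖ ≤ R + 1 →
    localWave Ω χ lam u z₀ x = u (z₀ + ((1 / √lam : ℝ) : ℂ) * x)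

/-- most points are such -/
def S_Agree : Prop := ∀ (Ω : Set ℂ) (χ : ℝ → ℝ) (lam : ℕ → ℝ) (u : ℕ → ℂ → ℝ), IsCutoff χ →
  IsEigenSequence Ω lam u → ∀ R : ℝ, 0 ≤ R →
    Tendsto (fun n => volume {z₀ | z₀ ∈ Ω ∧ ¬ Agr Ω χ (lam n) (u n) R z₀}) atTop (𝓝 0)

/-- the reproduction formulas at such points -/
def S_RegR : Prop := ∀ (Ω : Set ℂ) (χ : ℝ → ℝ) (lam : ℕ → ℝ) (u : ℕ → ℂ → ℝ), IsCutoff χ →
  IsEigenSequence Ω lam u → ∀ R : ℝ, 0 ≤ R → ∀ n z₀, z₀ ∈ Ω → Agr Ω χ (lam n) (u n) R z₀ →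
    Good R (localWave Ω χ (lam n) (u n) z₀)

/-- asymptotic translation invariance -/
def S_RegS : Prop := ∀ (Ω : Set ℂ) (χ : ℝ → ℝ) (lam : ℕ → ℝ) (u : ℕ → ℂ → ℝ), IsCutoff χ →
  IsEigenSequence Ω lam u → ∀ (x : ℂ) (k : ℕ) (w : Fin k → ℂ) (t : Fin k → ℝ),
    Tendsto (fun n => (∫ z₀ in Ω, ch (fun j => w j + x) t (localWave Ω χ (lam n) (u n) z₀)) -
      ∫ z₀ in Ω, ch w t (localWave Ω χ (lam n) (u n) z₀)) atTop (𝓝 0)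

/-- the local measures -/
def S_Reg : Prop := ∀ [MeasurableSpace C(ℂ, ℝ)] [BorelSpace C(ℂ, ℝ)] (Ω : Set ℂ) (χ : ℝ → ℝ)
  (lam : ℕ → ℝ) (u : ℕ → ℂ → ℝ), IsCutoff χ → IsEigenSequence Ω lam u →
    Reg (fun n => locMeas Ω χ (lam n) (u n)) ∧
    ∀ n (G : C(ℂ, ℝ) → ℝ), Continuous G → (∃ C, ∀ f, |G f| ≤ C) →
      ∫ f, G f ∂(locMeas Ω χ (lam n) (u n)) = localMean Ω χ (lam n) (u n) G

end

end Pool.Agent.H992.BE
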