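import Pool.Agent.H992.BE.Defs
import Pool.Agent.H788.BE.Emb
import Pool.Agent.H734.BE.RegPM
import Pool.Agent.H120.BE.Agree

/-!
# The local measures of an eigensequence satisfy the abstract hypotheses
-/

set_option autoImplicit false
open MeasureTheory Filter Topology Complex ProbabilityTheory
open scoped ContDiff ENNReal NNReal BoundedContinuousFunction

namespace Pool.Agent.H992.BE

open Pool.Agent.K3h40.EC.Loc (cutWave localWave IsCutoff IsLocalLimit)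

noncomputable section

theorem good_anti {R R' : ℝ} (h : R ≤ R') {f : C(ℂ, ℝ)} (hf : Good R' f) : Good R f :=
  fun x hx => hf x (hx.trans h)

theorem regAll : S_Reg := by
  intro _ _ Ω χ lam u hχ hu
  have hP := fun n => Pool.Agent.H734.BE.regP Ω χ lam u hχ hu n
  have hM := Pool.Agent.H734.BE.regM Ω χ lam u hχ hu
  have hv0 : (volume Ω)⁻¹ ≠ ⊤ :=
    ENNReal.inv_ne_top.2 (hu.isOpen.measure_pos volume hu.nonempty).ne'
  have hvt : volume Ω ≠ ⊤ := hu.area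
  refine ⟨⟨fun n => (hP n).2.1, fun ρ => ?_, fun R => ?_, ?_, fun x k w t => ?_⟩,
    fun n => (hP n).2.2.2.2⟩
  · obtain ⟨C, hC, h⟩ := hM.1 ρ
    have hmeas : Measurable fun f : C(ℂ, ℝ) => ∫⁻ v in Metric.closedBall (0 : ℂ) ρ, ‖f v‖ₑ := by
      have h1 : Measurable fun p : C(ℂ, ℝ) × ℂ => ‖p.1 p.2‖ₑ :=
        (continuous_eval (F := C(ℂ, ℝ)) (X := ℂ) (Y := ℝ)).measurable.enorm
      exact h1.lintegral_prod_right'
    refine ⟨(volume Ω)⁻¹ * C, ENNReal.mul_ne_top hv0 hC, fun n => ?_⟩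
    rw [(hP n).2.2.1 _ hmeas]
    gcongr
    exact h n
  · have hcl : MeasurableSet {f : C(ℂ, ℝ) | ¬ Good R f} :=
      (Pool.Agent.H788.BE.closed R).measurableSet.compl
    have hR0 : (0 : ℝ) ≤ max R 0 := le_max_right _ _
    have h1 := Pool.Agent.H120.BE.agree Ω χ lam u hχ hu (max R 0) hR0
    have h2 : Tendsto (fun n => (volume Ω)⁻¹ *
        volume {z₀ | z₀ ∈ Ω ∧ ¬ Agr Ω χ (lam n) (u n) (max R 0) z₀}) atTop (𝓝 0) := by
      have := ENNReal.Tendsto.const_mul h1 (Or.inr hv0)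
      rwa [mul_zero] at this
    refine tendsto_of_tendsto_of_tendsto_of_le_of_le tendsto_const_nhds h2
      (fun _ => zero_le') (fun n => ?_)
    have h3 := (hP n).2.2.1 (Set.indicator {f : C(ℂ, ℝ) | ¬ Good R f} 1)
      (measurable_one.indicator hcl)
    rw [lintegral_indicator_one hcl] at h3
    show locMeas Ω χ (lam n) (u n) {f | ¬ Good R f} ≤ _
    rw [h3]
    gcongr
    have h4 : ∀ z₀ ∈ Ω, (Set.indicator {f : C(ℂ, ℝ) | ¬ Good R f} 1
        (localWave Ω χ (lam n) (u n) z₀) : ℝ≥0∞) ≤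
        Set.indicator {z₀ | z₀ ∈ Ω ∧ ¬ Agr Ω χ (lam n) (u n) (max R 0) z₀} 1 z₀ := by
      intro z₀ hz
      by_cases hA : Agr Ω χ (lam n) (u n) (max R 0) z₀
      · have hg := Pool.Agent.H120.BE.regR Ω χ lam u hχ hu (max R 0) hR0 n z₀ hz hA
        rw [Set.indicator_of_notMem]
        · exact zero_le'
        · simp only [Set.mem_setOf_eq, not_not]
          exact good_anti (le_max_left _ _) hg
      · rw [Set.indicator_of_mem (s := {z₀ | z₀ ∈ Ω ∧ ¬ Agr Ω χ (lam n) (u n) (max R 0) z₀})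
          (show z₀ ∈ {z₀ | z₀ ∈ Ω ∧ ¬ Agr Ω χ (lam n) (u n) (max R 0) z₀} from ⟨hz, hA⟩)]
        exact Set.indicator_le_self' (fun _ _ => zero_le') _ |>.trans (le_of_eq rfl)
    calc ∫⁻ z₀ in Ω, (Set.indicator {f : C(ℂ, ℝ) | ¬ Good R f} 1
          (localWave Ω χ (lam n) (u n) z₀) : ℝ≥0∞)
        ≤ ∫⁻ z₀ in Ω, Set.indicator {z₀ | z₀ ∈ Ω ∧ ¬ Agr Ω χ (lam n) (u n) (max R 0) z₀} 1 z₀ :=
          lintegral_mono_ae ((ae_restrict_iff' hu.isOpen.measurableSet).2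
            (Eventually.of_forall h4))
      _ ≤ ∫⁻ z₀, Set.indicator {z₀ | z₀ ∈ Ω ∧ ¬ Agr Ω χ (lam n) (u n) (max R 0) z₀} 1 z₀ :=
          setLIntegral_le_lintegral _ _
      _ ≤ volume {z₀ | z₀ ∈ Ω ∧ ¬ Agr Ω χ (lam n) (u n) (max R 0) z₀} :=
          lintegral_indicator_one_le _
  · obtain ⟨C, hC, h⟩ := hM.2
    have hmeas : Measurable fun f : C(ℂ, ℝ) => ‖f 0‖ₑ ^ 2 :=
      (continuous_eval_const (0 : ℂ)).measurable.enorm.pow_const 2
    refine ⟨(volume Ω)⁻¹ * C, ENNReal.mul_ne_top hv0 hC, fun n => ?_⟩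
    rw [(hP n).2.2.1 _ hmeas]
    gcongr
    exact h n
  · have h1 := Pool.Agent.H120.BE.regS Pool.Agent.H120.BE.agree Ω χ lam u hχ hu x k w t
    have h2 := h1.div_const ((volume Ω).toReal : ℂ)
    rw [zero_div] at h2
    refine h2.congr fun n => ?_
    show _ = ∫ f, ch (fun j => w j + x) t f ∂(locMeas Ω χ (lam n) (u n)) -
      ∫ f, ch w t f ∂(locMeas Ω χ (lam n) (u n))
    rw [(hP n).2.2.2.1, (hP n).2.2.2.1, sub_div]

end

end Pool.Agent.H992.BE
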