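import Pool.Agent.H992.BE.Main2
import Pool.Agent.H992.BE.RegAll
import Pool.Agent.H860.BE.KSNear
import Pool.Agent.H784.BE.Regf
import Pool.Agent.H181.BE.Sub
import Pool.Agent.H591.BE.Mod
import Pool.Agent.H177.BE.Lim
import Pool.Agent.H728.BE.MWlaw
import Pool.Agent.H643.BE.AC
import Pool.Agent.H921.BE.KvN
import Pool.Agent.H356.BE.Rat

/-!
# Berry's conjecture in the mean over energies: assembly
-/

set_option autoImplicit false
open MeasureTheory Filter Topology Complex ProbabilityTheory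
open scoped ContDiff ENNReal NNReal BoundedContinuousFunction

namespace Pool.Agent.H992.BE

open Pool.Agent.N661.BR (MW lin IsStationary IsRandomWave)
open Pool.Agent.K3h40.EC.Loc (cutWave localWave IsCutoff IsLocalLimit)
open Pool.Agent.H992.LB (jet)

noncomputable section

theorem pKS : S_KS := Pool.Agent.H860.BE.ks
theorem pMod : S_Mod := Pool.Agent.H591.BE.mod pKS Pool.Agent.H860.BE.near
  Pool.Agent.H784.BE.regf_map
theorem pLim : S_Lim := Pool.Agent.H177.BE.lim pKS pMod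
theorem pSub : S_Sub := Pool.Agent.H181.BE.sub pKS pMod
theorem pMW : S_MW := Pool.Agent.H728.BE.mw Pool.Agent.H788.BE.emb
theorem pAC : S_AC := Pool.Agent.H643.BE.ac
theorem pKvN : S_KvN := Pool.Agent.H921.BE.kvn
theorem pCes : S_Ces := Pool.Agent.H921.BE.ces
theorem pRat : S_Rat := Pool.Agent.H356.BE.rat

/-- uniform absolute continuity with respect to `γ` of a sequence of functionals `E n`, tested
with continuous functions of finitely many values in `U`: for every `ε` there is a `δ` such that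
every function `Φ` with values in `[0, 1]` whose mean for `γ` is at most `δ` has asymptotically a
mean at most `ε` -/
def AsympAbsCont (γ : Measure MW) (U : Set ℂ) (E : ℕ → (C(ℂ, ℝ) → ℝ) → ℝ) : Prop :=
  ∀ ε : ℝ, 0 < ε → ∃ δ : ℝ, 0 < δ ∧ ∀ (k : ℕ) (w : Fin k → ℂ), (∀ j, w j ∈ U) →
    ∀ Φ : (Fin k → ℝ) → ℝ, Continuous Φ → (∀ y, 0 ≤ Φ y) → (∀ y, Φ y ≤ 1) →
      ∫ f : MW, Φ (fun j => f (w j)) ∂γ ≤ δ → ∀ᶠ n in atTop, E n (fun f => Φ fun j => f (w j)) ≤ ε

/-- the mean of the local means over the first `N` eigenfunctions -/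
def energyMean (Ω : Set ℂ) (χ : ℝ → ℝ) (lam : ℕ → ℝ) (u : ℕ → ℂ → ℝ) (N : ℕ)
    (G : C(ℂ, ℝ) → ℝ) : ℝ :=
  (∑ n ∈ Finset.range N, localMean Ω χ (lam n) (u n) G) / N

/-- the only limit point of the local measures along the subsequence `σ` is the random wave -/
def OnlyLimit [MeasurableSpace C(ℂ, ℝ)] (γ : Measure MW) (Ω : Set ℂ) (χ : ℝ → ℝ) (lam : ℕ → ℝ)
    (u : ℕ → ℂ → ℝ) (σ : ℕ → ℕ) : Prop :=
  ∀ μ : Measure C(ℂ, ℝ), IsProbabilityMeasure μ →
    (IsLocalLimit Ω χ (fun j => lam (σ j)) (fun j => u (σ j)) μ ↔ μ = γ.map toC)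

variable [MeasurableSpace C(ℂ, ℝ)] [BorelSpace C(ℂ, ℝ)]

theorem toC_meas : Measurable toC := Pool.Agent.H788.BE.emb.1.measurable

section
variable {Ω : Set ℂ} {χ : ℝ → ℝ} {lam : ℕ → ℝ} {u : ℕ → ℂ → ℝ}

theorem uac_congr {γ : Measure MW} {U : Set ℂ} {E E' : ℕ → (C(ℂ, ℝ) → ℝ) → ℝ}
    (h : ∀ n (G : C(ℂ, ℝ) → ℝ), Continuous G → (∃ C, ∀ f, |G f| ≤ C) → E n G = E' n G) :
    AsympAbsCont γ U E → UACl γ U atTop E' := by
  intro hE ε hε
  obtain ⟨δ, hδ, hd⟩ := hE ε hε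
  refine ⟨δ, hδ, fun k w hw Φ hΦ h0 h1 hle => ?_⟩
  filter_upwards [hd k w hw Φ hΦ h0 h1 hle] with n hn
  rwa [← h n _ (cyl_cont w hΦ)
    ⟨1, fun f => abs_le.2 ⟨by linarith [h0 fun j => f (w j)], h1 _⟩⟩]

/-- convergence implies uniform absolute continuity -/
theorem uac_of_conv {γ : Measure MW} {U : Set ℂ} {E : ℕ → (C(ℂ, ℝ) → ℝ) → ℝ}
    (h : ∀ G : C(ℂ, ℝ) → ℝ, Continuous G → (∃ C, ∀ f, |G f| ≤ C) →
      Tendsto (fun n => E n G) atTop (𝓝 (∫ f, G (toC f) ∂γ))) : AsympAbsCont γ U E := by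
  intro ε hε
  refine ⟨ε / 2, by positivity, fun k w hw Φ hΦ h0 h1 hle => ?_⟩
  have h2 := h (fun f => Φ fun j => f (w j)) (cyl_cont w hΦ)
    ⟨1, fun f => abs_le.2 ⟨by linarith [h0 fun j => f (w j)], h1 _⟩⟩
  have h3 : ∫ f, (fun f : C(ℂ, ℝ) => Φ fun j => f (w j)) (toC f) ∂γ < ε :=
    lt_of_le_of_lt (show ∫ f : MW, Φ (fun j => f (w j)) ∂γ ≤ ε / 2 from hle) (by linarith)
  exact (h2.eventually (gt_mem_nhds h3)).mono fun n hn => hn.le

/-- the local limit points are the limits of the integrals for the local measures -/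
theorem limit_iff (hχ : IsCutoff χ) (hu : IsEigenSequence Ω lam u) (σ : ℕ → ℕ)
    (μ : Measure C(ℂ, ℝ)) : IsLocalLimit Ω χ (fun j => lam (σ j)) (fun j => u (σ j)) μ ↔
      ∃ τ : ℕ → ℕ, StrictMono τ ∧ ∀ G : C(ℂ, ℝ) → ℝ, Continuous G → (∃ C, ∀ f, |G f| ≤ C) →
        Tendsto (fun j => ∫ f, G f ∂(locMeas Ω χ (lam (σ (τ j))) (u (σ (τ j))))) atTop
          (𝓝 (∫ f, G f ∂μ)) := by
  have hR := (regAll Ω χ lam u hχ hu).2
  unfold IsLocalLimit
  constructor
  · rintro ⟨τ, hτ, h⟩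
    refine ⟨τ, hτ, fun G hG hC => (h G hG hC).congr fun j => ?_⟩
    rw [hR _ G hG hC]
    rfl
  · rintro ⟨τ, hτ, h⟩
    refine ⟨τ, hτ, fun G hG hC => (h G hG hC).congr fun j => ?_⟩
    rw [hR _ G hG hC]
    rfl

theorem ext_bc {μ ν : Measure C(ℂ, ℝ)} [IsFiniteMeasure μ] [IsFiniteMeasure ν]
    (h : ∀ G : C(ℂ, ℝ) → ℝ, Continuous G → (∃ C, ∀ f, |G f| ≤ C) →
      ∫ f, G f ∂μ = ∫ f, G f ∂ν) : μ = ν := by
  refine ext_of_forall_integral_eq_of_IsFiniteMeasure fun G => ?_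
  exact h G G.continuous ⟨‖G‖, fun f => by
    rw [← Real.norm_eq_abs]; exact G.norm_coe_le_norm f⟩

/-- the only limit point is the random wave if and only if the local measures converge to it -/
theorem onlyLimit_iff (hχ : IsCutoff χ) (hu : IsEigenSequence Ω lam u) {γ : Measure MW}
    [IsProbabilityMeasure γ] {σ : ℕ → ℕ} (hσ : StrictMono σ) :
    OnlyLimit γ Ω χ lam u σ ↔ ∀ G : C(ℂ, ℝ) → ℝ, Continuous G → (∃ C, ∀ f, |G f| ≤ C) →
      Tendsto (fun j => ∫ f, G f ∂(locMeas Ω χ (lam (σ j)) (u (σ j)))) atTop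
        (𝓝 (∫ f, G (toC f) ∂γ)) := by
  have hm := (regAll Ω χ lam u hχ hu).1
  haveI : IsProbabilityMeasure (γ.map toC) :=
    Measure.isProbabilityMeasure_map toC_meas.aemeasurable
  have hmap : ∀ G : C(ℂ, ℝ) → ℝ, Continuous G →
      ∫ f, G f ∂(γ.map toC) = ∫ f, G (toC f) ∂γ := fun G hG =>
    integral_map toC_meas.aemeasurable hG.measurable.aestronglyMeasurable
  constructor
  · intro h G hG hC
    exact of_limit_points pSub hm toC_meas hσ (fun μ hμ hlim =>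
      (h μ hμ).1 ((limit_iff hχ hu σ μ).2 hlim)) hG hC
  · intro h μ hμ
    rw [limit_iff hχ hu σ μ]
    constructor
    · rintro ⟨τ, hτ, hlim⟩
      refine ext_bc fun G hG hC => ?_
      rw [hmap G hG]
      exact tendsto_nhds_unique (hlim G hG hC) ((h G hG hC).comp hτ.tendsto_atTop)
    · rintro rfl
      refine ⟨id, strictMono_id, fun G hG hC => ?_⟩
      rw [hmap G hG]
      exact h G hG hC

/-- every limit point is the law of a stationary wave -/
theorem limit_law (hχ : IsCutoff χ) (hu : IsEigenSequence Ω lam u) {μ : Measure C(ℂ, ℝ)}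
    [IsProbabilityMeasure μ] (hμ : IsLocalLimit Ω χ lam u μ) :
    ∃ ν : Measure MW, IsProbabilityMeasure ν ∧ μ = ν.map toC ∧ IsStationary ν ∧
      Integrable (fun f : MW => f 0 ^ 2) ν := by
  have hm := (regAll Ω χ lam u hχ hu).1
  obtain ⟨τ, hτ, hlim⟩ := (limit_iff hχ hu id μ).1 hμ
  obtain ⟨φ, hφ⟩ := Ultrafilter.exists_le (atTop : Filter ℕ)
  obtain ⟨ν, hν, hst, hi, h⟩ := key1 pLim pMW hm (aone_sch hτ.tendsto_atTop) φ hφ
  replace h : ∀ G : C(ℂ, ℝ) → ℝ, Continuous G → (∃ C, ∀ f, |G f| ≤ C) →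
      Tendsto (fun N => ∫ f, G f ∂(locMeas Ω χ (lam (τ N)) (u (τ N)))) φ
        (𝓝 (∫ f, G (toC f) ∂ν)) := fun G hG hC =>
    (h G hG hC).congr fun N => aone_sum τ N fun n => ∫ f, G f ∂(locMeas Ω χ (lam n) (u n))
  have e : μ = ν.map toC := by
    haveI : IsFiniteMeasure (ν.map toC) := Measure.isFiniteMeasure_map _ _
    refine ext_bc fun G hG hC => ?_
    rw [integral_map toC_meas.aemeasurable hG.measurable.aestronglyMeasurable]
    exact tendsto_nhds_unique ((hlim G hG hC).mono_left hφ) (h G hG hC)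
  refine ⟨ν, ⟨?_⟩, e, hst, hi⟩
  have h1 : μ Set.univ = 1 := measure_univ
  rw [e, Measure.map_apply toC_meas MeasurableSet.univ, Set.preimage_univ] at h1
  exact h1

/-- limits of the energy averages are laws of stationary waves too, and exist -/
theorem exists_limit (hχ : IsCutoff χ) (hu : IsEigenSequence Ω lam u) {σ : ℕ → ℕ}
    (hσ : StrictMono σ) : ∃ μ : Measure C(ℂ, ℝ), IsProbabilityMeasure μ ∧
      IsLocalLimit Ω χ (fun j => lam (σ j)) (fun j => u (σ j)) μ := by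
  have hm := (regAll Ω χ lam u hχ hu).1
  obtain ⟨τ, μ, hτ, hμ, h⟩ := pSub (fun n => locMeas Ω χ (lam n) (u n)) hm σ hσ
  exact ⟨μ, hμ, (limit_iff hχ hu σ μ).2 ⟨τ, hτ, h⟩⟩

end

end

end Pool.Agent.H992.BE
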