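import Pool.Agent.H992.BE.Defs

/-!
# Averages of local measures: the main argument
-/

set_option autoImplicit false
open MeasureTheory Filter Topology Complex ProbabilityTheory
open scoped ContDiff ENNReal NNReal BoundedContinuousFunction

namespace Pool.Agent.H992.BE

open Pool.Agent.N661.BR (MW lin IsStationary IsRandomWave)
open Pool.Agent.H992.LB (jet eq_of_jet eq_smul ext_MW rw_stat)

noncomputable section

variable [MeasurableSpace C(ℂ, ℝ)] [BorelSpace C(ℂ, ℝ)]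

theorem bc_int {G : C(ℂ, ℝ) → ℝ} (hG : Continuous G) {C : ℝ} (hC : ∀ f, |G f| ≤ C)
    (μ : Measure C(ℂ, ℝ)) [IsFiniteMeasure μ] : Integrable G μ :=
  Integrable.of_bound hG.measurable.aestronglyMeasurable C
    (Eventually.of_forall fun f => by rw [Real.norm_eq_abs]; exact hC f)

theorem int_avg {m : ℕ → Measure C(ℂ, ℝ)} (hm : Reg m) (a : ℕ → ℕ → ℝ≥0) (L : ℕ → ℕ) (N : ℕ)
    {G : C(ℂ, ℝ) → ℝ} (hG : Continuous G) (hC : ∃ C, ∀ f, |G f| ≤ C) :
    ∫ f, G f ∂(avg m a L N) = ∑ n ∈ Finset.range (L N), (a N n : ℝ) * ∫ f, G f ∂(m n) := by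
  obtain ⟨C, hC⟩ := hC
  unfold avg
  rw [integral_finset_sum_measure]
  · refine Finset.sum_congr rfl fun n _ => ?_
    rw [integral_smul_nnreal_measure]
    rfl
  · intro n _
    haveI := hm.prob n
    exact (bc_int hG hC (m n)).smul_measure_nnreal

theorem key1 (hL : S_Lim) (hM : S_MW) {m : ℕ → Measure C(ℂ, ℝ)} (hm : Reg m)
    {a : ℕ → ℕ → ℝ≥0} {L : ℕ → ℕ} (ha : Sch a L) (φ : Ultrafilter ℕ)
    (hφ : (φ : Filter ℕ) ≤ atTop) :
    ∃ μ : Measure MW, IsFiniteMeasure μ ∧ IsStationary μ ∧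
      Integrable (fun f : MW => f 0 ^ 2) μ ∧
      ∀ G : C(ℂ, ℝ) → ℝ, Continuous G → (∃ C, ∀ f, |G f| ≤ C) →
        Tendsto (fun N => ∑ n ∈ Finset.range (L N), (a N n : ℝ) * ∫ f, G f ∂(m n)) φ
          (𝓝 (∫ f, G (toC f) ∂μ)) := by
  obtain ⟨μ, hμ, hG⟩ := hL m hm a L ha φ hφ
  obtain ⟨μ', hμ', hmeas, hmap, hst, hint⟩ := hM m hm a L ha φ hφ μ hμ hG
  refine ⟨μ', hμ', hst, hint, fun G hGc hGb => ?_⟩
  have h1 := hG G hGc hGb
  rw [hmap, integral_map hmeas.aemeasurable hGc.measurable.aestronglyMeasurable] at h1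
  refine h1.congr fun N => ?_
  exact int_avg hm a L N hGc hGb

/-- the mass of the limit -/
theorem mass_lim {m : ℕ → Measure C(ℂ, ℝ)} (hm : Reg m) {a : ℕ → ℕ → ℝ≥0} {L : ℕ → ℕ}
    {φ : Ultrafilter ℕ} {μ : Measure MW} [IsFiniteMeasure μ]
    (h : ∀ G : C(ℂ, ℝ) → ℝ, Continuous G → (∃ C, ∀ f, |G f| ≤ C) →
        Tendsto (fun N => ∑ n ∈ Finset.range (L N), (a N n : ℝ) * ∫ f, G f ∂(m n)) φ
          (𝓝 (∫ f, G (toC f) ∂μ))) :
    Tendsto (fun N => ∑ n ∈ Finset.range (L N), (a N n : ℝ)) φ (𝓝 (μ.real Set.univ)) := by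
  have h1 := h (fun _ => 1) continuous_const ⟨1, fun _ => by simp⟩
  simp only [integral_const, smul_eq_mul, mul_one] at h1
  refine h1.congr fun N => Finset.sum_congr rfl fun n _ => ?_
  haveI := hm.prob n
  simp

/-- uniform absolute continuity of a sequence of functionals with respect to `γ` on `U`, along
a filter -/
def UACl (γ : Measure MW) (U : Set ℂ) (l : Filter ℕ) (E : ℕ → (C(ℂ, ℝ) → ℝ) → ℝ) : Prop :=
  ∀ ε : ℝ, 0 < ε → ∃ δ : ℝ, 0 < δ ∧ ∀ (k : ℕ) (w : Fin k → ℂ), (∀ j, w j ∈ U) →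
    ∀ Φ : (Fin k → ℝ) → ℝ, Continuous Φ → (∀ y, 0 ≤ Φ y) → (∀ y, Φ y ≤ 1) →
      ∫ f : MW, Φ (fun j => f (w j)) ∂γ ≤ δ → ∀ᶠ N in l, E N (fun f => Φ fun j => f (w j)) ≤ ε

omit [MeasurableSpace C(ℂ, ℝ)] [BorelSpace C(ℂ, ℝ)] in
theorem cyl_cont {k : ℕ} (w : Fin k → ℂ) {Φ : (Fin k → ℝ) → ℝ} (h : Continuous Φ) :
    Continuous fun f : C(ℂ, ℝ) => Φ fun j => f (w j) :=
  h.comp (continuous_pi fun j => continuous_eval_const (w j))

theorem key2 (hAC : S_AC) {γ : Measure MW} [IsProbabilityMeasure γ] (hγ : IsRandomWave γ)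
    {U : Set ℂ} (hU : IsOpen U) (hne : U.Nonempty) {φ : Ultrafilter ℕ}
    {E : ℕ → (C(ℂ, ℝ) → ℝ) → ℝ} (hE : UACl γ U φ E) {μ : Measure MW} [IsProbabilityMeasure μ]
    (hst : IsStationary μ) (hi : Integrable (fun f : MW => f 0 ^ 2) μ)
    (h : ∀ G : C(ℂ, ℝ) → ℝ, Continuous G → (∃ C, ∀ f, |G f| ≤ C) →
        Tendsto (fun N => E N G) φ (𝓝 (∫ f, G (toC f) ∂μ))) : μ = γ := by
  obtain ⟨x, hx⟩ := hne
  refine eq_of_jet hγ hst hi x fun A hA h0 => ?_
  refine hAC U μ γ (fun ε hε => ?_) A (Pool.Agent.H992.LB.jet_le_vals hU hx A hA) h0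
  obtain ⟨δ, hδ, hd⟩ := hE ε hε
  refine ⟨δ, hδ, fun k w hw Φ hΦ h0 h1 hle => ?_⟩
  have h2 := h (fun f => Φ fun j => f (w j)) (cyl_cont w hΦ)
    ⟨1, fun f => abs_le.2 ⟨by linarith [h0 fun j => f (w j)], h1 _⟩⟩
  exact le_of_tendsto h2 (hd k w hw Φ hΦ h0 h1 hle)

/-- weights concentrated at one index -/
def aone (σ : ℕ → ℕ) (N n : ℕ) : ℝ≥0 := if n = σ N then 1 else 0

omit [MeasurableSpace C(ℂ, ℝ)] [BorelSpace C(ℂ, ℝ)] in
theorem aone_sch {σ : ℕ → ℕ} (hσ : Tendsto σ atTop atTop) : Sch (aone σ) (fun N => σ N + 1) where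
  le N := by
    unfold aone
    rw [Finset.sum_ite_eq' (Finset.range (σ N + 1)) (σ N) (fun _ => (1 : ℝ≥0))]
    simp
  zero n := by
    refine tendsto_const_nhds.congr' ?_
    filter_upwards [hσ.eventually_gt_atTop n] with N hN
    unfold aone
    rw [if_neg hN.ne]

omit [MeasurableSpace C(ℂ, ℝ)] [BorelSpace C(ℂ, ℝ)] in
theorem aone_sum (σ : ℕ → ℕ) (N : ℕ) (b : ℕ → ℝ) :
    ∑ n ∈ Finset.range (σ N + 1), (aone σ N n : ℝ) * b n = b (σ N) := by
  unfold aone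
  rw [Finset.sum_eq_single (σ N)]
  · simp
  · intro n _ hn
    simp [hn]
  · intro h
    simp at h

/-- weights of a subset -/
def aset (S : Set ℕ) (N n : ℕ) : ℝ≥0 := open Classical in if n ∈ S then (1 : ℝ≥0) / N else 0

omit [MeasurableSpace C(ℂ, ℝ)] [BorelSpace C(ℂ, ℝ)] in
theorem aset_sch (S : Set ℕ) : Sch (aset S) (fun N => N) where
  le N := by
    classical
    calc ∑ n ∈ Finset.range N, aset S N n ≤ ∑ n ∈ Finset.range N, (1 : ℝ≥0) / N := by
          refine Finset.sum_le_sum fun n _ => ?_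
          unfold aset
          split_ifs
          · exact le_refl _
          · exact zero_le'
      _ ≤ 1 := by
          rw [Finset.sum_const, Finset.card_range, nsmul_eq_mul, mul_one_div]
          exact div_self_le_one _
  zero n := by
    classical
    by_cases hn : n ∈ S
    · simp only [aset, if_pos hn]
      exact tendsto_one_div_atTop_nhds_zero_nat (𝕜 := ℝ≥0)
    · simp only [aset, if_neg hn]
      exact tendsto_const_nhds

omit [MeasurableSpace C(ℂ, ℝ)] [BorelSpace C(ℂ, ℝ)] in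
theorem aset_univ (N : ℕ) (b : ℕ → ℝ) :
    ∑ n ∈ Finset.range N, (aset Set.univ N n : ℝ) * b n = (∑ n ∈ Finset.range N, b n) / (N : ℝ) := by
  rw [Finset.sum_div]
  refine Finset.sum_congr rfl fun n _ => ?_
  simp [aset]
  ring

omit [MeasurableSpace C(ℂ, ℝ)] [BorelSpace C(ℂ, ℝ)] in
theorem aset_add (S : Set ℕ) (N : ℕ) (b : ℕ → ℝ) :
    ∑ n ∈ Finset.range N, (aset S N n : ℝ) * b n + ∑ n ∈ Finset.range N, (aset Sᶜ N n : ℝ) * b n =
      (∑ n ∈ Finset.range N, b n) / (N : ℝ) := by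
  classical
  rw [← Finset.sum_add_distrib, Finset.sum_div]
  refine Finset.sum_congr rfl fun n _ => ?_
  unfold aset
  by_cases hn : n ∈ S
  · simp [hn]; ring
  · simp [hn]; ring

/-- convergence of single terms, from uniform absolute continuity -/
theorem conv_one (hL : S_Lim) (hM : S_MW) (hAC : S_AC) {γ : Measure MW} [IsProbabilityMeasure γ]
    (hγ : IsRandomWave γ) {m : ℕ → Measure C(ℂ, ℝ)} (hm : Reg m) {U : Set ℂ} (hU : IsOpen U)
    (hne : U.Nonempty) (hE : UACl γ U atTop (fun n G => ∫ f, G f ∂(m n)))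
    {G : C(ℂ, ℝ) → ℝ} (hG : Continuous G) (hC : ∃ C, ∀ f, |G f| ≤ C) :
    Tendsto (fun n => ∫ f, G f ∂(m n)) atTop (𝓝 (∫ f, G (toC f) ∂γ)) := by
  rw [tendsto_iff_ultrafilter]
  intro φ hφ
  obtain ⟨μ, hμ, hst, hi, h⟩ := key1 hL hM hm (aone_sch (σ := fun N => N) tendsto_id) φ hφ
  have hmass := mass_lim hm h
  replace h : ∀ G : C(ℂ, ℝ) → ℝ, Continuous G → (∃ C, ∀ f, |G f| ≤ C) →
      Tendsto (fun N => ∫ f, G f ∂(m N)) φ (𝓝 (∫ f, G (toC f) ∂μ)) := fun G hG hC =>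
    (h G hG hC).congr fun N => aone_sum (fun N => N) N fun n => ∫ f, G f ∂(m n)
  have e1 : μ.real Set.univ = 1 := by
    refine tendsto_nhds_unique hmass ?_
    refine tendsto_const_nhds.congr fun N => ?_
    have := aone_sum (fun N => N) N (fun _ => 1)
    simp only [mul_one] at this
    exact this.symm
  haveI : IsProbabilityMeasure μ := ⟨by
    rw [Measure.real, ENNReal.toReal_eq_one_iff] at e1
    exact e1⟩
  have h2 : μ = γ := key2 hAC hγ hU hne (φ := φ) (E := fun n G => ∫ f, G f ∂(m n))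
    (fun ε hε => by
      obtain ⟨δ, hδ, hd⟩ := hE ε hε
      exact ⟨δ, hδ, fun k w hw Φ hΦ h0 h1 hle => hφ (hd k w hw Φ hΦ h0 h1 hle)⟩) hst hi h
  rw [← h2]
  exact h G hG hC

/-- convergence of the energy averages, from uniform absolute continuity -/
theorem conv_avg (hL : S_Lim) (hM : S_MW) (hAC : S_AC) {γ : Measure MW} [IsProbabilityMeasure γ]
    (hγ : IsRandomWave γ) {m : ℕ → Measure C(ℂ, ℝ)} (hm : Reg m) {U : Set ℂ} (hU : IsOpen U)
    (hne : U.Nonempty)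
    (hE : UACl γ U atTop (fun N G => (∑ n ∈ Finset.range N, ∫ f, G f ∂(m n)) / (N : ℝ)))
    {G : C(ℂ, ℝ) → ℝ} (hG : Continuous G) (hC : ∃ C, ∀ f, |G f| ≤ C) :
    Tendsto (fun N : ℕ => (∑ n ∈ Finset.range N, ∫ f, G f ∂(m n)) / (N : ℝ)) atTop
      (𝓝 (∫ f, G (toC f) ∂γ)) := by
  rw [tendsto_iff_ultrafilter]
  intro φ hφ
  obtain ⟨μ, hμ, hst, hi, h⟩ := key1 hL hM hm (aset_sch Set.univ) φ hφ
  have hmass := mass_lim hm h
  simp only [aset_univ] at h
  have e1 : μ.real Set.univ = 1 := by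
    refine tendsto_nhds_unique hmass ?_
    refine tendsto_const_nhds.congr' ?_
    filter_upwards [hφ (eventually_gt_atTop 0)] with N hN
    have := aset_univ N (fun _ => 1)
    simp only [mul_one] at this
    rw [this]
    rw [Finset.sum_const, Finset.card_range, nsmul_eq_mul, mul_one, div_self]
    exact_mod_cast hN.ne'
  haveI : IsProbabilityMeasure μ := ⟨by
    rw [Measure.real, ENNReal.toReal_eq_one_iff] at e1
    exact e1⟩
  have h2 : μ = γ := key2 hAC hγ hU hne (φ := φ)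
    (E := fun N G => (∑ n ∈ Finset.range N, ∫ f, G f ∂(m n)) / (N : ℝ))
    (fun ε hε => by
      obtain ⟨δ, hδ, hd⟩ := hE ε hε
      exact ⟨δ, hδ, fun k w hw Φ hΦ h0 h1 hle => hφ (hd k w hw Φ hΦ h0 h1 hle)⟩) hst hi h
  rw [← h2]
  exact h G hG hC

end

end Pool.Agent.H992.BE
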