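import Pool.Agent.H992.BE.Main

/-!
# Averages of local measures: full density subsequences
-/

set_option autoImplicit false
open MeasureTheory Filter Topology Complex ProbabilityTheory
open scoped ContDiff ENNReal NNReal BoundedContinuousFunction

namespace Pool.Agent.H992.BE

open Pool.Agent.N661.BR (MW lin IsStationary IsRandomWave)
open Pool.Agent.H992.LB (jet eq_of_jet eq_smul ext_MW rw_stat meas_lin)

noncomputable section

/-- the real and imaginary parts of a character -/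
def cosf {k : ℕ} (w : Fin k → ℂ) (t : Fin k → ℝ) (f : C(ℂ, ℝ)) : ℝ :=
  Real.cos (∑ j, t j * f (w j))

/-- the imaginary part -/
def sinf {k : ℕ} (w : Fin k → ℂ) (t : Fin k → ℝ) (f : C(ℂ, ℝ)) : ℝ :=
  Real.sin (∑ j, t j * f (w j))

theorem lin_cont {k : ℕ} (w : Fin k → ℂ) (t : Fin k → ℝ) :
    Continuous fun f : C(ℂ, ℝ) => ∑ j, t j * f (w j) :=
  continuous_finset_sum _ fun j _ => continuous_const.mul (continuous_eval_const (w j))

theorem cosf_cont {k : ℕ} (w : Fin k → ℂ) (t : Fin k → ℝ) : Continuous (cosf w t) :=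
  Real.continuous_cos.comp (lin_cont w t)

theorem sinf_cont {k : ℕ} (w : Fin k → ℂ) (t : Fin k → ℝ) : Continuous (sinf w t) :=
  Real.continuous_sin.comp (lin_cont w t)

theorem cosf_le {k : ℕ} (w : Fin k → ℂ) (t : Fin k → ℝ) (f : C(ℂ, ℝ)) : |cosf w t f| ≤ 1 :=
  Real.abs_cos_le_one _

theorem sinf_le {k : ℕ} (w : Fin k → ℂ) (t : Fin k → ℝ) (f : C(ℂ, ℝ)) : |sinf w t f| ≤ 1 :=
  Real.abs_sin_le_one _

theorem char_eq {k : ℕ} (w : Fin k → ℂ) (t : Fin k → ℝ) (μ : Measure MW) [IsFiniteMeasure μ] :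
    ∫ f, Complex.exp (I * (lin w t f : ℝ)) ∂μ =
      ((∫ f, cosf w t (toC f) ∂μ : ℝ) : ℂ) + ((∫ f, sinf w t (toC f) ∂μ : ℝ) : ℂ) * I := by
  have h1 : ∀ f : MW, Complex.exp (I * (lin w t f : ℝ)) =
      ((cosf w t (toC f) : ℝ) : ℂ) + ((sinf w t (toC f) : ℝ) : ℂ) * I := by
    intro f
    rw [mul_comm, Complex.exp_mul_I]
    have e : lin w t f = ∑ j, t j * (toC f) (w j) := rfl
    unfold cosf sinf
    rw [e, Complex.ofReal_cos, Complex.ofReal_sin]
  have hmc : Measurable fun f : MW => cosf w t (toC f) :=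
    Real.measurable_cos.comp (meas_lin w t)
  have hms : Measurable fun f : MW => sinf w t (toC f) :=
    Real.measurable_sin.comp (meas_lin w t)
  have i1 : Integrable (fun f : MW => ((cosf w t (toC f) : ℝ) : ℂ)) μ :=
    (Integrable.of_bound hmc.aestronglyMeasurable 1
      (Eventually.of_forall fun f => by rw [Real.norm_eq_abs]; exact cosf_le w t _)).ofReal
  have i2 : Integrable (fun f : MW => ((sinf w t (toC f) : ℝ) : ℂ)) μ :=
    (Integrable.of_bound hms.aestronglyMeasurable 1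
      (Eventually.of_forall fun f => by rw [Real.norm_eq_abs]; exact sinf_le w t _)).ofReal
  simp_rw [h1]
  rw [integral_add i1 (i2.mul_const _), integral_mul_const, integral_complex_ofReal,
    integral_complex_ofReal]

theorem eq_of_int (μ ν : Measure MW) [IsFiniteMeasure μ] [IsFiniteMeasure ν]
    (h : ∀ G : C(ℂ, ℝ) → ℝ, Continuous G → (∃ C, ∀ f, |G f| ≤ C) →
      ∫ f, G (toC f) ∂μ = ∫ f, G (toC f) ∂ν) : μ = ν := by
  refine ext_MW μ ν fun k w t => ?_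
  rw [char_eq, char_eq, h _ (cosf_cont w t) ⟨1, cosf_le w t⟩, h _ (sinf_cont w t) ⟨1, sinf_le w t⟩]

variable [MeasurableSpace C(ℂ, ℝ)] [BorelSpace C(ℂ, ℝ)]

/-- convergence of the energy averages to the random wave -/
def AvgConv (m : ℕ → Measure C(ℂ, ℝ)) (γ : Measure MW) : Prop :=
  ∀ G : C(ℂ, ℝ) → ℝ, Continuous G → (∃ C, ∀ f, |G f| ≤ C) →
    Tendsto (fun N : ℕ => (∑ n ∈ Finset.range N, ∫ f, G f ∂(m n)) / (N : ℝ)) atTop
      (𝓝 (∫ f, G (toC f) ∂γ))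

theorem subset_conv (hL : S_Lim) (hM : S_MW) {γ : Measure MW} [IsProbabilityMeasure γ]
    (hγ : IsRandomWave γ) {m : ℕ → Measure C(ℂ, ℝ)} (hm : Reg m) (hb : AvgConv m γ) (S : Set ℕ)
    {G : C(ℂ, ℝ) → ℝ} (hG : Continuous G) (hC : ∃ C, ∀ f, |G f| ≤ C) :
    Tendsto (fun N : ℕ => ∑ n ∈ Finset.range N, (aset S N n : ℝ) *
      (∫ f, G f ∂(m n) - ∫ f, G (toC f) ∂γ)) atTop (𝓝 0) := by
  rw [tendsto_iff_ultrafilter]
  intro φ hφ
  obtain ⟨μ, hμ, hst, hi, h⟩ := key1 hL hM hm (aset_sch S) φ hφ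
  obtain ⟨ν, hν, hst', hi', h'⟩ := key1 hL hM hm (aset_sch Sᶜ) φ hφ
  have hadd : μ + ν = γ := by
    refine eq_of_int (μ + ν) γ fun F hF hFC => ?_
    have h1 := (h F hF hFC).add (h' F hF hFC)
    have h2 := (hb F hF hFC).mono_left hφ
    have h3 : Tendsto (fun N : ℕ => (∑ n ∈ Finset.range N, ∫ f, F f ∂(m n)) / (N : ℝ)) φ
        (𝓝 (∫ f, F (toC f) ∂μ + ∫ f, F (toC f) ∂ν)) :=
      h1.congr fun N => aset_add S N fun n => ∫ f, F f ∂(m n)
    rw [← tendsto_nhds_unique h3 h2]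
    obtain ⟨C, hC⟩ := hFC
    have hm1 : ∀ ρ : Measure MW, IsFiniteMeasure ρ → Integrable (fun f : MW => F (toC f)) ρ := by
      intro ρ hρ
      have hmt : Measurable toC := by
        obtain ⟨μ0, hμ0, h0⟩ := hL m hm _ _ (aset_sch S) φ hφ
        obtain ⟨-, -, h1, -⟩ := hM m hm _ _ (aset_sch S) φ hφ μ0 hμ0 h0
        exact h1
      exact Integrable.of_bound (hF.measurable.comp hmt).aestronglyMeasurable C
        (Eventually.of_forall fun f => by rw [Real.norm_eq_abs]; exact hC _)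
    exact integral_add_measure (hm1 μ hμ) (hm1 ν hν)
  have hle : μ ≤ γ := by
    rw [← hadd]
    exact Measure.le_add_right le_rfl
  have hsm := eq_smul hγ hst hle.absolutelyContinuous
  have h1 := (h G hG hC).sub ((mass_lim hm h).mul_const (∫ f, G (toC f) ∂γ))
  have h2 : ∫ f, G (toC f) ∂μ - μ.real Set.univ * ∫ f, G (toC f) ∂γ = 0 := by
    have e : ∫ f, G (toC f) ∂μ = μ.real Set.univ * ∫ f, G (toC f) ∂γ := by
      conv_lhs => rw [hsm]
      rw [integral_smul_measure, smul_eq_mul]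
      rfl
    rw [e, sub_self]
  rw [h2] at h1
  refine h1.congr fun N => ?_
  rw [Finset.sum_mul, ← Finset.sum_sub_distrib]
  exact Finset.sum_congr rfl fun n _ => by ring

theorem abs_conv (hL : S_Lim) (hM : S_MW) {γ : Measure MW} [IsProbabilityMeasure γ]
    (hγ : IsRandomWave γ) {m : ℕ → Measure C(ℂ, ℝ)} (hm : Reg m) (hb : AvgConv m γ)
    {G : C(ℂ, ℝ) → ℝ} (hG : Continuous G) (hC : ∃ C, ∀ f, |G f| ≤ C) :
    Tendsto (fun N : ℕ => (∑ n ∈ Finset.range N,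
      |∫ f, G f ∂(m n) - ∫ f, G (toC f) ∂γ|) / (N : ℝ)) atTop (𝓝 0) := by
  classical
  set c : ℕ → ℝ := fun n => ∫ f, G f ∂(m n) - ∫ f, G (toC f) ∂γ with hc
  set S : Set ℕ := {n | 0 ≤ c n} with hS
  have h1 := (subset_conv hL hM hγ hm hb S hG hC).sub (subset_conv hL hM hγ hm hb Sᶜ hG hC)
  rw [sub_zero] at h1
  refine h1.congr fun N => ?_
  rw [← Finset.sum_sub_distrib, Finset.sum_div]
  refine Finset.sum_congr rfl fun n _ => ?_
  change (aset S N n : ℝ) * c n - (aset Sᶜ N n : ℝ) * c n = |c n| / N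
  unfold aset
  by_cases hn : 0 ≤ c n
  · have h2 : n ∈ S := hn
    rw [abs_of_nonneg hn]
    simp [h2]
    ring
  · have h2 : n ∉ S := hn
    rw [abs_of_neg (not_le.1 hn)]
    simp [h2]
    ring

/-- convergence along a subsequence, from the convergence of countably many characters -/
theorem conv_along (hL : S_Lim) (hM : S_MW) {γ : Measure MW} [IsProbabilityMeasure γ]
    {m : ℕ → Measure C(ℂ, ℝ)} (hm : Reg m) {k : ℕ → ℕ} {w : ∀ i, Fin (k i) → ℂ}
    {t : ∀ i, Fin (k i) → ℝ}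
    (hdet : ∀ μ ν : Measure MW, IsFiniteMeasure μ → IsFiniteMeasure ν →
      (∀ i, ∫ f, Complex.exp (I * (lin (w i) (t i) f : ℝ)) ∂μ =
        ∫ f, Complex.exp (I * (lin (w i) (t i) f : ℝ)) ∂ν) → μ = ν)
    {σ : ℕ → ℕ} (hσ : StrictMono σ)
    (hc : ∀ i, Tendsto (fun j => ∫ f, cosf (w i) (t i) f ∂(m (σ j))) atTop
      (𝓝 (∫ f, cosf (w i) (t i) (toC f) ∂γ)))
    (hs : ∀ i, Tendsto (fun j => ∫ f, sinf (w i) (t i) f ∂(m (σ j))) atTop
      (𝓝 (∫ f, sinf (w i) (t i) (toC f) ∂γ)))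
    {G : C(ℂ, ℝ) → ℝ} (hG : Continuous G) (hC : ∃ C, ∀ f, |G f| ≤ C) :
    Tendsto (fun j => ∫ f, G f ∂(m (σ j))) atTop (𝓝 (∫ f, G (toC f) ∂γ)) := by
  rw [tendsto_iff_ultrafilter]
  intro φ hφ
  obtain ⟨μ, hμ, hst, hi, h⟩ := key1 hL hM hm (aone_sch hσ.tendsto_atTop) φ hφ
  replace h : ∀ G : C(ℂ, ℝ) → ℝ, Continuous G → (∃ C, ∀ f, |G f| ≤ C) →
      Tendsto (fun N => ∫ f, G f ∂(m (σ N))) φ (𝓝 (∫ f, G (toC f) ∂μ)) := fun G hG hC =>
    (h G hG hC).congr fun N => aone_sum σ N fun n => ∫ f, G f ∂(m n)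
  have h2 : μ = γ := by
    refine hdet μ γ hμ inferInstance fun i => ?_
    rw [char_eq, char_eq,
      tendsto_nhds_unique (h _ (cosf_cont _ _) ⟨1, cosf_le _ _⟩) ((hc i).mono_left hφ),
      tendsto_nhds_unique (h _ (sinf_cont _ _) ⟨1, sinf_le _ _⟩) ((hs i).mono_left hφ)]
  rw [← h2]
  exact h G hG hC

/-- **Energy averages imply full density.** -/
theorem full_density (hL : S_Lim) (hM : S_MW) (hR : S_Rat) (hK : S_KvN) {γ : Measure MW}
    [IsProbabilityMeasure γ] (hγ : IsRandomWave γ) {m : ℕ → Measure C(ℂ, ℝ)} (hm : Reg m)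
    (hb : AvgConv m γ) : ∃ σ : ℕ → ℕ, StrictMono σ ∧ FullDensity σ ∧
      ∀ G : C(ℂ, ℝ) → ℝ, Continuous G → (∃ C, ∀ f, |G f| ≤ C) →
        Tendsto (fun j => ∫ f, G f ∂(m (σ j))) atTop (𝓝 (∫ f, G (toC f) ∂γ)) := by
  obtain ⟨k, w, t, hdet⟩ := hR
  have hb1 : ∀ (G : C(ℂ, ℝ) → ℝ) (n : ℕ), (∀ f, |G f| ≤ 1) →
      |∫ f, G f ∂(m n) - ∫ f, G (toC f) ∂γ| ≤ 2 := by
    intro G n hG
    haveI := hm.prob n
    have h1 : ‖∫ f, G f ∂(m n)‖ ≤ 1 := by
      have := norm_integral_le_of_norm_le_const (μ := m n) (f := G) (C := 1)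
        (Eventually.of_forall fun f => by rw [Real.norm_eq_abs]; exact hG f)
      simpa using this
    have h2 : ‖∫ f, G (toC f) ∂γ‖ ≤ 1 := by
      have := norm_integral_le_of_norm_le_const (μ := γ) (f := fun f : MW => G (toC f)) (C := 1)
        (Eventually.of_forall fun f => by rw [Real.norm_eq_abs]; exact hG _)
      simpa using this
    rw [Real.norm_eq_abs] at h1 h2
    calc |∫ f, G f ∂(m n) - ∫ f, G (toC f) ∂γ| ≤ |∫ f, G f ∂(m n)| + |∫ f, G (toC f) ∂γ| :=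
          abs_sub _ _
      _ ≤ 2 := by linarith
  let gg : ℕ → Bool → C(ℂ, ℝ) → ℝ := fun i b => cond b (cosf (w i) (t i)) (sinf (w i) (t i))
  let g : ℕ → C(ℂ, ℝ) → ℝ := fun i => gg (i / 2) (decide (i % 2 = 0))
  have hggc : ∀ i b, Continuous (gg i b) := fun i b => by
    cases b
    · exact sinf_cont _ _
    · exact cosf_cont _ _
  have hggb : ∀ i b f, |gg i b f| ≤ 1 := fun i b f => by
    cases b
    · exact sinf_le _ _ _
    · exact cosf_le _ _ _
  have hgc : ∀ i, Continuous (g i) := fun i => hggc _ _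
  have hgb : ∀ i f, |g i f| ≤ 1 := fun i f => hggb _ _ _
  obtain ⟨σ, hσ, hfd, hlim⟩ := hK
    (fun i n => |∫ f, g i f ∂(m n) - ∫ f, g i (toC f) ∂γ|) (fun i n => abs_nonneg _)
    (fun i n => hb1 (g i) n (hgb i)) (fun i => abs_conv hL hM hγ hm hb (hgc i) ⟨1, hgb i⟩)
  have hl2 : ∀ i, Tendsto (fun j => ∫ f, g i f ∂(m (σ j))) atTop (𝓝 (∫ f, g i (toC f) ∂γ)) := by
    intro i
    have h1 := (tendsto_zero_iff_abs_tendsto_zero _).2 (hlim i)
    have h2 := h1.add_const (∫ f, g i (toC f) ∂γ)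
    simpa using h2
  refine ⟨σ, hσ, hfd, fun G hG hC => conv_along hL hM hm hdet hσ (fun i => ?_) (fun i => ?_) hG hC⟩
  · have h1 := hl2 (2 * i)
    have e1 : (2 * i) % 2 = 0 := by omega
    have e2 : (2 * i) / 2 = i := by omega
    have e3 : g (2 * i) = gg i true := by
      show gg (2 * i / 2) (decide (2 * i % 2 = 0)) = gg i true
      rw [e2, e1]
      rfl
    rw [e3] at h1
    exact h1
  · have h1 := hl2 (2 * i + 1)
    have e1 : (2 * i + 1) % 2 = 1 := by omega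
    have e2 : (2 * i + 1) / 2 = i := by omega
    have e3 : g (2 * i + 1) = gg i false := by
      show gg ((2 * i + 1) / 2) (decide ((2 * i + 1) % 2 = 0)) = gg i false
      rw [e2, e1]
      rfl
    rw [e3] at h1
    exact h1

/-- the limit points of a sequence of measures determine its limit -/
theorem of_limit_points (hS : S_Sub) {γ : Measure MW} {m : ℕ → Measure C(ℂ, ℝ)} (hm : Reg m)
    (hmt : Measurable toC) {σ : ℕ → ℕ} (hσ : StrictMono σ)
    (h : ∀ μ : Measure C(ℂ, ℝ), IsProbabilityMeasure μ → (∃ τ : ℕ → ℕ, StrictMono τ ∧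
      ∀ G : C(ℂ, ℝ) → ℝ, Continuous G → (∃ C, ∀ f, |G f| ≤ C) →
        Tendsto (fun j => ∫ f, G f ∂(m (σ (τ j)))) atTop (𝓝 (∫ f, G f ∂μ))) → μ = γ.map toC)
    {G : C(ℂ, ℝ) → ℝ} (hG : Continuous G) (hC : ∃ C, ∀ f, |G f| ≤ C) :
    Tendsto (fun j => ∫ f, G f ∂(m (σ j))) atTop (𝓝 (∫ f, G (toC f) ∂γ)) := by
  refine tendsto_of_subseq_tendsto fun ns hns => ?_
  obtain ⟨ms, hms, hms2⟩ := Filter.strictMono_subseq_of_tendsto_atTop hns
  obtain ⟨τ, μ, hτ, hμ, hlim⟩ := hS m hm (fun j => σ (ns (ms j))) (hσ.comp hms2)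
  have e := h μ hμ ⟨fun j => ns (ms (τ j)), hms2.comp hτ, hlim⟩
  refine ⟨fun j => ms (τ j), ?_⟩
  have h1 := hlim G hG hC
  rw [e, integral_map hmt.aemeasurable hG.measurable.aestronglyMeasurable] at h1
  exact h1

end

end Pool.Agent.H992.BE
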