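import Pool.Agent.H992.BE.Fin

/-!
# The robust criterion: one weak inequality in a tiny disc gives a proportion of the random wave
-/

set_option autoImplicit false
open MeasureTheory Filter Topology Complex ProbabilityTheory
open scoped ContDiff ENNReal NNReal BoundedContinuousFunction

namespace Pool.Agent.H992.BE

open Pool.Agent.N661.BR (MW lin IsStationary IsRandomWave)
open Pool.Agent.K3h40.EC.Loc (cutWave localWave IsCutoff IsLocalLimit)
open Pool.Agent.H992.LB (jet)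
open Pool.Agent.H643.BE (Appr appr_all int_diff int_cyl int_ind)

noncomputable section

theorem robust_law {γ : Measure MW} [IsProbabilityMeasure γ] (hγ : IsRandomWave γ)
    {ν : Measure MW} [IsProbabilityMeasure ν] (hst : IsStationary ν)
    (hi : Integrable (fun f : MW => f 0 ^ 2) ν) {U : Set ℂ} (hU : IsOpen U) (hne : U.Nonempty)
    {δ η : ℝ} (hδ : 0 < δ)
    (h : ∀ (k : ℕ) (w : Fin k → ℂ), (∀ j, w j ∈ U) → ∀ Φ : (Fin k → ℝ) → ℝ, Continuous Φ →
      (∀ y, 0 ≤ Φ y) → (∀ y, Φ y ≤ 1) → ∫ f : MW, Φ (fun j => f (w j)) ∂γ ≤ δ →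
      ∫ f : MW, Φ (fun j => f (w j)) ∂ν ≤ η) :
    ENNReal.ofReal (1 - η) • γ ≤ ν := by
  obtain ⟨x, hx⟩ := hne
  obtain ⟨p, s, hp, hadd, -, hsing⟩ := Pool.Agent.H992.LB.general hγ hst hi
  obtain ⟨A, hA, hs, hg⟩ := hsing x
  have hYm : ∀ i, Measurable (Pool.Agent.H992.LB.ev U i) := Pool.Agent.H992.LB.ev_meas U
  have hB : MeasurableSet[Pool.Agent.H992.LB.sig (Pool.Agent.H992.LB.ev U)] Aᶜ :=
    (Pool.Agent.H992.LB.jet_le_vals hU hx A hA).compl
  obtain ⟨mB, hAp⟩ := appr_all (ν := ν + γ) (Y := Pool.Agent.H992.LB.ev U) hYm hB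
  have hνB : ν.real Aᶜ ≤ η := by
    refine le_of_forall_pos_le_add fun ε hε => ?_
    obtain ⟨k, w, Φ, hΦ, hΦ0, hΦ1, hI⟩ := hAp (min δ ε) (lt_min hδ hε)
    have i1 := int_diff ν hYm w hΦ hΦ0 hΦ1 mB
    have i2 := int_diff γ hYm w hΦ hΦ0 hΦ1 mB
    rw [integral_add_measure i1 i2] at hI
    have n1 : 0 ≤ ∫ x, |Aᶜ.indicator (fun _ => (1 : ℝ)) x -
        Φ (fun j => Pool.Agent.H992.LB.ev U (w j) x)| ∂ν := integral_nonneg fun _ => abs_nonneg _
    have n2 : 0 ≤ ∫ x, |Aᶜ.indicator (fun _ => (1 : ℝ)) x -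
        Φ (fun j => Pool.Agent.H992.LB.ev U (w j) x)| ∂γ := integral_nonneg fun _ => abs_nonneg _
    have m1 := min_le_left δ ε
    have m2 := min_le_right δ ε
    have c1 := int_cyl ν hYm w hΦ hΦ0 hΦ1
    have c2 := int_cyl γ hYm w hΦ hΦ0 hΦ1
    have g1 : ∫ x, Φ (fun j => Pool.Agent.H992.LB.ev U (w j) x) ∂γ ≤ δ := by
      have h1 : ∫ x, Φ (fun j => Pool.Agent.H992.LB.ev U (w j) x) ∂γ ≤
          ∫ x, (|Aᶜ.indicator (fun _ => (1 : ℝ)) x -
            Φ (fun j => Pool.Agent.H992.LB.ev U (w j) x)| +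
            Aᶜ.indicator (fun _ => (1 : ℝ)) x) ∂γ := by
        refine integral_mono c2 (i2.add (int_ind γ mB)) fun x => ?_
        have h2 := neg_abs_le (Aᶜ.indicator (fun _ => (1 : ℝ)) x -
            Φ (fun j => Pool.Agent.H992.LB.ev U (w j) x))
        show _ ≤ |Aᶜ.indicator (fun _ => (1 : ℝ)) x -
            Φ (fun j => Pool.Agent.H992.LB.ev U (w j) x)| + Aᶜ.indicator (fun _ => (1 : ℝ)) x
        linarith
      rw [integral_add i2 (int_ind γ mB), integral_indicator_const _ mB] at h1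
      simp only [Measure.real, hg, ENNReal.toReal_zero, smul_eq_mul, zero_mul, add_zero] at h1
      linarith
    have g2 : ∫ x, Φ (fun j => Pool.Agent.H992.LB.ev U (w j) x) ∂ν ≤ η :=
      h k (fun j => (w j : ℂ)) (fun j => (w j).2) Φ hΦ hΦ0 hΦ1 g1
    have h3 : ∫ x, Aᶜ.indicator (fun _ => (1 : ℝ)) x ∂ν ≤
        ∫ x, (|Aᶜ.indicator (fun _ => (1 : ℝ)) x -
          Φ (fun j => Pool.Agent.H992.LB.ev U (w j) x)| +
          Φ (fun j => Pool.Agent.H992.LB.ev U (w j) x)) ∂ν := by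
      refine integral_mono (int_ind ν mB) (i1.add c1) fun x => ?_
      have h2 := le_abs_self (Aᶜ.indicator (fun _ => (1 : ℝ)) x -
            Φ (fun j => Pool.Agent.H992.LB.ev U (w j) x))
      show _ ≤ |Aᶜ.indicator (fun _ => (1 : ℝ)) x -
            Φ (fun j => Pool.Agent.H992.LB.ev U (w j) x)| +
            Φ (fun j => Pool.Agent.H992.LB.ev U (w j) x)
      linarith
    rw [integral_add i1 c1, integral_indicator_const _ mB] at h3
    simp only [smul_eq_mul, mul_one] at h3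
    linarith
  -- the total mass of `s`
  have hs1 : s Set.univ ≤ ENNReal.ofReal η := by
    have h1 : s Set.univ ≤ s A + s Aᶜ := by
      rw [← Set.union_compl_self A]
      exact measure_union_le _ _
    rw [hs, zero_add] at h1
    have h2 : s Aᶜ ≤ ν Aᶜ := by
      rw [hadd]
      exact Measure.le_iff'.1 (Measure.le_add_left le_rfl) _
    refine (h1.trans h2).trans ?_
    rw [← ENNReal.ofReal_toReal (measure_ne_top ν Aᶜ)]
    exact ENNReal.ofReal_le_ofReal hνB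
  have hp1 : ENNReal.ofReal (1 - η) ≤ p := by
    have h1 : (1 : ℝ≥0∞) = p + s Set.univ := by
      have := congrArg (fun ρ : Measure MW => ρ Set.univ) hadd
      simpa using this
    have h2 : ENNReal.ofReal (1 - η) = 1 - ENNReal.ofReal η := by
      by_cases hη : 0 ≤ η
      · rw [ENNReal.ofReal_sub _ hη, ENNReal.ofReal_one]
      · exfalso
        have := h 0 Fin.elim0 (fun j => j.elim0) (fun _ => 0) continuous_const (fun _ => le_rfl)
          (fun _ => zero_le_one) (by simp [hδ.le])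
        simp only [integral_zero] at this
        exact hη this
    rw [h2]
    refine tsub_le_iff_right.2 ?_
    rw [h1]
    gcongr
  calc ENNReal.ofReal (1 - η) • γ ≤ p • γ := by
        refine Measure.le_iff.2 fun S _ => ?_
        rw [Measure.smul_apply, Measure.smul_apply, smul_eq_mul, smul_eq_mul]
        gcongr
    _ ≤ ν := by
        rw [hadd]
        exact Measure.le_add_right le_rfl

/-- asymptotically, functions `Φ` of values in `U` with mean at most `δ` for `γ` have a mean at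
most `η` -/
def WeakBound (γ : Measure MW) (U : Set ℂ) (δ η : ℝ) (E : ℕ → (C(ℂ, ℝ) → ℝ) → ℝ) : Prop :=
  ∀ (k : ℕ) (w : Fin k → ℂ), (∀ j, w j ∈ U) → ∀ Φ : (Fin k → ℝ) → ℝ, Continuous Φ →
    (∀ y, 0 ≤ Φ y) → (∀ y, Φ y ≤ 1) → ∫ f : MW, Φ (fun j => f (w j)) ∂γ ≤ δ →
    ∀ ε : ℝ, 0 < ε → ∀ᶠ n in atTop, E n (fun f => Φ fun j => f (w j)) ≤ η + ε

variable [MeasurableSpace C(ℂ, ℝ)] [BorelSpace C(ℂ, ℝ)]

/-- the robust criterion for a sequence of functionals all of whose ultrafilter limits are laws of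
stationary waves -/
theorem robust {γ : Measure MW} [IsProbabilityMeasure γ] (hγ : IsRandomWave γ)
    {U : Set ℂ} (hU : IsOpen U) (hne : U.Nonempty) {δ η : ℝ} (hδ : 0 < δ)
    {E : ℕ → (C(ℂ, ℝ) → ℝ) → ℝ}
    (hE : ∀ φ : Ultrafilter ℕ, (φ : Filter ℕ) ≤ atTop → ∃ ν : Measure MW,
      IsProbabilityMeasure ν ∧ IsStationary ν ∧ Integrable (fun f : MW => f 0 ^ 2) ν ∧
      ∀ G : C(ℂ, ℝ) → ℝ, Continuous G → (∃ C, ∀ f, |G f| ≤ C) →
        Tendsto (fun n => E n G) φ (𝓝 (∫ f, G (toC f) ∂ν)))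
    (h : WeakBound γ U δ η E) {G : C(ℂ, ℝ) → ℝ} (hG : Continuous G) (hC : ∃ C, ∀ f, |G f| ≤ C)
    (h0 : ∀ f, 0 ≤ G f) (ε : ℝ) (hε : 0 < ε) :
    ∀ᶠ n in atTop, (1 - η) * ∫ f, G (toC f) ∂γ - ε ≤ E n G := by
  by_contra hcon
  rw [Filter.not_eventually] at hcon
  haveI : NeBot (atTop ⊓ 𝓟 {n | ¬ ((1 - η) * ∫ f, G (toC f) ∂γ - ε ≤ E n G)}) :=
    Filter.frequently_iff_neBot.1 hcon
  obtain ⟨φ, hφ⟩ := Ultrafilter.exists_le
    (atTop ⊓ 𝓟 {n | ¬ ((1 - η) * ∫ f, G (toC f) ∂γ - ε ≤ E n G)})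
  have hφ1 : (φ : Filter ℕ) ≤ atTop := hφ.trans inf_le_left
  have hφ2 : ∀ᶠ n in (φ : Filter ℕ), ¬ ((1 - η) * ∫ f, G (toC f) ∂γ - ε ≤ E n G) :=
    (hφ.trans inf_le_right) (mem_principal_self _)
  obtain ⟨ν, hν, hst, hi, hlim⟩ := hE φ hφ1
  have h1 : ENNReal.ofReal (1 - η) • γ ≤ ν := by
    refine robust_law hγ hst hi hU hne hδ fun k w hw Φ hΦ hΦ0 hΦ1 hle => ?_
    refine le_of_forall_pos_le_add fun ε' hε' => ?_
    have h2 := hlim (fun f => Φ fun j => f (w j)) (cyl_cont w hΦ)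
      ⟨1, fun f => abs_le.2 ⟨by linarith [hΦ0 fun j => f (w j)], hΦ1 _⟩⟩
    exact le_of_tendsto h2 (hφ1 (h k w hw Φ hΦ hΦ0 hΦ1 hle ε' hε'))
  have hGi : ∀ ρ : Measure MW, IsFiniteMeasure ρ → Integrable (fun f : MW => G (toC f)) ρ := by
    intro ρ hρ
    obtain ⟨C, hC⟩ := hC
    exact Integrable.of_bound (hG.measurable.comp toC_meas).aestronglyMeasurable C
      (Eventually.of_forall fun f => by rw [Real.norm_eq_abs]; exact hC _)
  have h3 : (1 - η) * ∫ f, G (toC f) ∂γ ≤ ∫ f, G (toC f) ∂ν := by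
    have hn : 0 ≤ ∫ f, G (toC f) ∂γ := integral_nonneg fun f => h0 _
    by_cases hη : 0 ≤ 1 - η
    · have h4 := integral_mono_measure h1 (Eventually.of_forall fun f => h0 (toC f))
        (hGi ν inferInstance)
      rw [integral_smul_measure, ENNReal.toReal_ofReal hη, smul_eq_mul] at h4
      exact h4
    · exact (mul_nonpos_of_nonpos_of_nonneg (not_le.1 hη).le hn).trans
        (integral_nonneg fun f => h0 _)
  have h5 := hlim G hG hC
  have h6 : ∫ f, G (toC f) ∂ν ≤ (1 - η) * ∫ f, G (toC f) ∂γ - ε :=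
    le_of_tendsto h5 (hφ2.mono fun n hn => (not_le.1 hn).le)
  linarith

section
variable {Ω : Set ℂ} {χ : ℝ → ℝ} {lam : ℕ → ℝ} {u : ℕ → ℂ → ℝ}

theorem prob_of_mass {m : ℕ → Measure C(ℂ, ℝ)} (hm : Reg m) {a : ℕ → ℕ → ℝ≥0} {L : ℕ → ℕ}
    {φ : Ultrafilter ℕ} {μ : Measure MW} [IsFiniteMeasure μ]
    (h : ∀ G : C(ℂ, ℝ) → ℝ, Continuous G → (∃ C, ∀ f, |G f| ≤ C) →
        Tendsto (fun N => ∑ n ∈ Finset.range (L N), (a N n : ℝ) * ∫ f, G f ∂(m n)) φ
          (𝓝 (∫ f, G (toC f) ∂μ)))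
    (h1 : ∀ᶠ N in (φ : Filter ℕ), ∑ n ∈ Finset.range (L N), (a N n : ℝ) = 1) :
    IsProbabilityMeasure μ := by
  have e1 : μ.real Set.univ = 1 :=
    tendsto_nhds_unique (mass_lim hm h)
      (tendsto_const_nhds.congr' (h1.mono fun N hN => hN.symm))
  refine ⟨?_⟩
  rw [Measure.real, ENNReal.toReal_eq_one_iff] at e1
  exact e1

/-- ultrafilter limits of the local means -/
theorem lims_one (hχ : IsCutoff χ) (hu : IsEigenSequence Ω lam u) (φ : Ultrafilter ℕ)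
    (hφ : (φ : Filter ℕ) ≤ atTop) : ∃ ν : Measure MW,
      IsProbabilityMeasure ν ∧ IsStationary ν ∧ Integrable (fun f : MW => f 0 ^ 2) ν ∧
      ∀ G : C(ℂ, ℝ) → ℝ, Continuous G → (∃ C, ∀ f, |G f| ≤ C) →
        Tendsto (fun n => localMean Ω χ (lam n) (u n) G) φ (𝓝 (∫ f, G (toC f) ∂ν)) := by
  obtain ⟨hm, hI⟩ := regAll Ω χ lam u hχ hu
  obtain ⟨μ, hμ, hst, hi, h⟩ := key1 pLim pMW hm (aone_sch (σ := fun N => N) tendsto_id) φ hφ
  refine ⟨μ, prob_of_mass hm h (Eventually.of_forall fun N => ?_), hst, hi, fun G hG hC => ?_⟩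
  · have := aone_sum (fun N => N) N (fun _ => 1)
    simpa only [mul_one] using this
  · refine (h G hG hC).congr fun N => ?_
    rw [← hI N G hG hC]
    exact aone_sum (fun N => N) N fun n => ∫ f, G f ∂(locMeas Ω χ (lam n) (u n))

theorem energy_eq (hχ : IsCutoff χ) (hu : IsEigenSequence Ω lam u) (N : ℕ) {G : C(ℂ, ℝ) → ℝ}
    (hG : Continuous G) (hC : ∃ C, ∀ f, |G f| ≤ C) : energyMean Ω χ lam u N G =
      (∑ n ∈ Finset.range N, ∫ f, G f ∂(locMeas Ω χ (lam n) (u n))) / (N : ℝ) := by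
  unfold energyMean
  congr 1
  exact Finset.sum_congr rfl fun n _ => ((regAll Ω χ lam u hχ hu).2 n G hG hC).symm

/-- ultrafilter limits of the energy averages along a sequence tending to infinity -/
theorem lims_avg (hχ : IsCutoff χ) (hu : IsEigenSequence Ω lam u) (φ : Ultrafilter ℕ)
    (hφ : (φ : Filter ℕ) ≤ atTop) : ∃ ν : Measure MW,
      IsProbabilityMeasure ν ∧ IsStationary ν ∧ Integrable (fun f : MW => f 0 ^ 2) ν ∧
      ∀ G : C(ℂ, ℝ) → ℝ, Continuous G → (∃ C, ∀ f, |G f| ≤ C) →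
        Tendsto (fun n => energyMean Ω χ lam u n G) φ (𝓝 (∫ f, G (toC f) ∂ν)) := by
  obtain ⟨hm, hI⟩ := regAll Ω χ lam u hχ hu
  obtain ⟨μ, hμ, hst, hi, h⟩ := key1 pLim pMW hm (aset_sch Set.univ) φ hφ
  refine ⟨μ, prob_of_mass hm h ?_, hst, hi, fun G hG hC => ?_⟩
  · filter_upwards [hφ (eventually_gt_atTop 0)] with N hN
    have := aset_univ N (fun _ => 1)
    simp only [mul_one] at this
    rw [this, Finset.sum_const, Finset.card_range, nsmul_eq_mul, mul_one, div_self]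
    exact_mod_cast hN.ne'
  · refine (h G hG hC).congr fun N => ?_
    rw [energy_eq hχ hu N hG hC]
    exact aset_univ N fun n => ∫ f, G f ∂(locMeas Ω χ (lam n) (u n))

end

end

end Pool.Agent.H992.BE
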